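import Pool.Agent.helper52.EU.SpecI

/-!
# Row eu:PTD (MP_ad8ced_nt): the decomposition with all the errors
-/

set_option autoImplicit false

open Finset

noncomputable section

namespace Pool.Agent.EU

open Pool.Agent.FI Pool.Agent.FJ

private theorem PTD_ZD (N : ℕ) (z : ℤ × ℤ) (hz : z ∈ ZD N) : z.1 % 2 = 1 ∧ IsCoprime z.1 z.2 := by
  unfold ZD at hz
  rw [Finset.mem_filter] at hz
  refine ⟨?_, hz.2.2⟩
  have h := hz.1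
  simp only [FF, Finset.mem_filter] at h
  exact h.2.1.1

private theorem PTD_cop (om : ℕ → ℤ × ℤ → ℤ × ℤ → ℤ) (hom : OmOK om) (x N A K₁ : ℕ) (p : (ℤ × ℤ) × (ℤ × ℤ)) (hp : p ∈ Pr x N A K₁)
    (e : ℕ) (he : e = 1 ∨ e = 2) : 1 ≤ e * (dl p.1 p.2).natAbs ∧
      IsCoprime (om e p.1 p.2) ((e * (dl p.1 p.2).natAbs : ℕ) : ℤ) := by
  unfold Pr at hp
  rw [Finset.mem_filter, Finset.mem_product] at hp
  obtain ⟨⟨h1, h2⟩, h3, h4⟩ := hp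
  have hne : dl p.1 p.2 ≠ 0 := by
    intro h
    rw [h] at h3
    simp at h3
  obtain ⟨a1, a2⟩ := PTD_ZD N _ h1
  obtain ⟨b1, b2⟩ := PTD_ZD N _ h2
  have h := (hom e he p.1 p.2 a1 b1 a2 b2 hne).1
  refine ⟨?_, ?_⟩
  · have h5 : 0 < (dl p.1 p.2).natAbs := Int.natAbs_pos.mpr hne
    have h6 : 0 < e := by omega
    exact Nat.mul_pos h6 h5
  · push_cast
    rcases Int.natAbs_eq (dl p.1 p.2) with h5 | h5
    · have h6 : |dl p.1 p.2| = dl p.1 p.2 := by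
        rw [Int.abs_eq_natAbs, ← h5]
      rw [h6]
      exact h
    · have h6 : |dl p.1 p.2| = - dl p.1 p.2 := by
        rw [Int.abs_eq_natAbs]
        omega
      rw [h6, mul_neg]
      exact h.neg_right

/-- absolute values -/
private theorem PTD_abs (P : Finset ((ℤ × ℤ) × (ℤ × ℤ))) (K₃ : ℕ) (β : ℤ × ℤ → ℝ) (Mβ : ℝ) (hβ : ∀ z, |β z| ≤ Mβ)
    (Gd : (ℤ × ℤ) × (ℤ × ℤ) → ℕ → Finset ℤ) (Ms : (ℤ × ℤ) × (ℤ × ℤ) → Finset ℤ)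
    (hsub : ∀ p ∈ P, ∀ b ∈ range K₃, Gd p b ⊆ Ms p) (f : (ℤ × ℤ) × (ℤ × ℤ) → ℕ → ℤ → ℕ → ℂ) :
    ‖∑ p ∈ P, (β p.1 : ℂ) * β p.2 * ∑ b ∈ range K₃, ∑ m ∈ Gd p b, (f p b m 1 - f p b m 2)‖ ≤
      Mβ ^ 2 * ∑ p ∈ P, ∑ b ∈ range K₃, ∑ m ∈ Ms p, ∑ e ∈ ({1, 2} : Finset ℕ), ‖f p b m e‖ := by
  have hM0 : 0 ≤ Mβ := (abs_nonneg _).trans (hβ (0, 0))
  refine (norm_sum_le _ _).trans ?_
  rw [Finset.mul_sum]
  refine Finset.sum_le_sum fun p hp => ?_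
  rw [norm_mul, norm_mul, Complex.norm_real, Complex.norm_real, Real.norm_eq_abs, Real.norm_eq_abs]
  have h1 : |β p.1| * |β p.2| ≤ Mβ ^ 2 := by
    rw [pow_two]
    exact mul_le_mul (hβ _) (hβ _) (abs_nonneg _) hM0
  refine mul_le_mul h1 ?_ (norm_nonneg _) (by positivity)
  refine (norm_sum_le _ _).trans (Finset.sum_le_sum fun b hb => ?_)
  refine (norm_sum_le _ _).trans ?_
  refine le_trans (Finset.sum_le_sum fun m _ => ?_)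
    (Finset.sum_le_sum_of_subset_of_nonneg (hsub p hp b hb) fun m _ _ => Finset.sum_nonneg fun e _ => norm_nonneg _)
  have h2 : ∑ e ∈ ({1, 2} : Finset ℕ), ‖f p b m e‖ = ‖f p b m 1‖ + ‖f p b m 2‖ :=
    Finset.sum_pair (by norm_num)
  rw [h2]
  exact norm_sub_le _ _

/-- the constants -/
private theorem PTD_fin (C₁ C₂ C₃ C₄ C₅ C₆ B T1 T2 T3 T4 : ℝ) (h1 : 0 < C₁) (h2 : 0 < C₂) (h3 : 0 < C₃)
    (h4 : 0 < C₄) (h5 : 0 ≤ C₅) (h6 : 0 < C₆) (hB : 0 ≤ B) (t1 : 0 ≤ T1) (t2 : 0 ≤ T2) (t3 : 0 ≤ T3) (t4 : 0 ≤ T4) :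
    C₁ * B * T1 + C₆ * B * T2 + B * (C₂ * (C₃ * T3)) + B * (C₄ * (C₅ * T4)) ≤
      (C₁ + C₆ + C₂ * C₃ + C₄ * C₅) * B * (T1 + T2 + T3 + T4) := by
  have e : (C₁ + C₆ + C₂ * C₃ + C₄ * C₅) * B * (T1 + T2 + T3 + T4) =
      C₁ * B * T1 + C₆ * B * T2 + B * (C₂ * (C₃ * T3)) + B * (C₄ * (C₅ * T4)) +
      B * (C₁ * (T2 + T3 + T4) + C₆ * (T1 + T3 + T4) + C₂ * C₃ * (T1 + T2 + T4) + C₄ * C₅ * (T1 + T2 + T3)) := by ring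
  rw [e]
  have : 0 ≤ B * (C₁ * (T2 + T3 + T4) + C₆ * (T1 + T3 + T4) + C₂ * C₃ * (T1 + T2 + T4) + C₄ * C₅ * (T1 + T2 + T3)) := by
    positivity
  linarith

theorem PTD (hWBX : WBX_stmt) (hCHE : CHE_stmt) (hRNR : RNR_stmt) (hGPM : GPM_stmt) (hLSN : LSN_stmt)
    (hGPL : GPL_stmt) (hLSQ : LSQ_stmt) (hSME : SME_stmt) : PTD_stmt := by
  classical
  obtain ⟨C₁, hC₁, hW⟩ := hWBX
  obtain ⟨hch1, hch2⟩ := hCHE
  obtain ⟨-, hR2, -⟩ := hRNR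
  obtain ⟨C₂, hC₂, hM⟩ := hGPM
  obtain ⟨C₃, hC₃, hN⟩ := hLSN
  obtain ⟨C₄, hC₄, hG⟩ := hGPL
  obtain ⟨C₅, hC₅, hQ⟩ := hLSQ
  obtain ⟨C₆, hC₆, hS⟩ := hSME
  refine ⟨C₁ + C₆ + C₂ * C₃ + C₄ * √C₅, by positivity, ?_⟩
  intro om hom x Z N R A K₁ K₃ K₄ R₀ R₁ hSiz hZ hK₁ hK₃ hK₄ hR₀ hR₀₁ hK hKx hxNA M Mβ lam β hlam hβ
  have hSz := hSiz
  obtain ⟨hx1, hN1, hR1, hA1, hAx, -⟩ := hSiz
  have hx0 : (0 : ℝ) < x := by exact_mod_cast hx1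
  have hK₃1 : 1 ≤ K₃ := by omega
  have hK1 : 1 ≤ K₃ * K₄ := Nat.mul_pos (by omega) (by omega)
  have hM0 : 0 ≤ M := (abs_nonneg _).trans (hlam.1 0)
  have hMβ0 : 0 ≤ Mβ := (abs_nonneg _).trans (hβ (0, 0))
  -- `D₁`
  obtain ⟨D₁, hD₁⟩ : ∃ D₁ : ℕ, D₁ = 2 * N * A / x := ⟨_, rfl⟩
  have hD1 : 1 ≤ D₁ := by
    rw [hD₁]
    refine Nat.div_pos ?_ (by omega)
    calc x ≤ N * A := hxNA
      _ ≤ 2 * (N * A) := Nat.le_mul_of_pos_left _ (by norm_num)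
      _ = 2 * N * A := by ring
  have hlD0 : 0 ≤ 1 + Real.log D₁ := by
    have : 0 ≤ Real.log D₁ := Real.log_nonneg (by exact_mod_cast hD1)
    linarith
  have hlx0 : 0 ≤ 1 + Real.log x := by
    have : 0 ≤ Real.log x := Real.log_nonneg (by exact_mod_cast hx1)
    linarith
  have hsub : ∀ p ∈ Pr x N A K₁, ∀ b ∈ range K₃, GdC x K₃ K₄ A p.1 p.2 b ⊆ Mz x (K₃ * K₄) A p.1 p.2 := by
    intro p hp b hb
    have hp' := hp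
    unfold Pr at hp'
    rw [Finset.mem_filter, Finset.mem_product] at hp'
    exact hR2 x N A K₁ K₃ K₄ hx1 hN1 hA1 hAx hK₁ hK₃1 hK₄ hK p.1 hp'.1.1 p.2 hp'.1.2 hp'.2.1 b (Finset.mem_range.1 hb)
  have hw := hW om hom x Z N R A K₁ K₃ K₄ hSz hZ hK₁ hK₃ hK₄ hK M Mβ lam β hlam hβ
  -- the three parts
  obtain ⟨Sw, hSw⟩ : ∃ S : ℝ, S = ∑ p ∈ Pr x N A K₁, β p.1 * β p.2 * ∑ b ∈ range K₃, ∑ m ∈ GdC x K₃ K₄ A p.1 p.2 b,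
      (Eg x K₃ K₄ lam b m (1 * (dl p.1 p.2).natAbs) (om 1 p.1 p.2) - Eg x K₃ K₄ lam b m (2 * (dl p.1 p.2).natAbs) (om 2 p.1 p.2)) :=
    ⟨_, rfl⟩
  rw [← hSw] at hw
  obtain ⟨Ss, hSs⟩ : ∃ S : ℂ, S = ∑ p ∈ Pr x N A K₁, (β p.1 : ℂ) * β p.2 * ∑ b ∈ range K₃, ∑ m ∈ GdC x K₃ K₄ A p.1 p.2 b,
      (Ec x K₃ K₄ (fun r => r ≤ R₀) lam b m (1 * (dl p.1 p.2).natAbs) (om 1 p.1 p.2) -
        Ec x K₃ K₄ (fun r => r ≤ R₀) lam b m (2 * (dl p.1 p.2).natAbs) (om 2 p.1 p.2)) := ⟨_, rfl⟩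
  obtain ⟨Sm, hSm⟩ : ∃ S : ℂ, S = ∑ p ∈ Pr x N A K₁, (β p.1 : ℂ) * β p.2 * ∑ b ∈ range K₃, ∑ m ∈ GdC x K₃ K₄ A p.1 p.2 b,
      (Ec x K₃ K₄ (fun r => R₀ < r ∧ r ≤ R₁) lam b m (1 * (dl p.1 p.2).natAbs) (om 1 p.1 p.2) -
        Ec x K₃ K₄ (fun r => R₀ < r ∧ r ≤ R₁) lam b m (2 * (dl p.1 p.2).natAbs) (om 2 p.1 p.2)) := ⟨_, rfl⟩
  obtain ⟨Sl, hSl⟩ : ∃ S : ℂ, S = ∑ p ∈ Pr x N A K₁, (β p.1 : ℂ) * β p.2 * ∑ b ∈ range K₃, ∑ m ∈ GdC x K₃ K₄ A p.1 p.2 b,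
      (Ec x K₃ K₄ (fun r => R₁ < r) lam b m (1 * (dl p.1 p.2).natAbs) (om 1 p.1 p.2) -
        Ec x K₃ K₄ (fun r => R₁ < r) lam b m (2 * (dl p.1 p.2).natAbs) (om 2 p.1 p.2)) := ⟨_, rfl⟩
  have hsplit : (Sw : ℂ) = Ss + Sm + Sl := by
    rw [hSw, hSs, hSm, hSl, Complex.ofReal_sum, ← Finset.sum_add_distrib, ← Finset.sum_add_distrib]
    refine Finset.sum_congr rfl fun p hp => ?_
    obtain ⟨a1, a2⟩ := PTD_cop om hom x N A K₁ p hp 1 (Or.inl rfl)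
    obtain ⟨b1, b2⟩ := PTD_cop om hom x N A K₁ p hp 2 (Or.inr rfl)
    rw [← mul_add, ← mul_add, Complex.ofReal_mul, Complex.ofReal_mul]
    congr 1
    rw [Complex.ofReal_sum, ← Finset.sum_add_distrib, ← Finset.sum_add_distrib]
    refine Finset.sum_congr rfl fun b _ => ?_
    rw [Complex.ofReal_sum, ← Finset.sum_add_distrib, ← Finset.sum_add_distrib]
    refine Finset.sum_congr rfl fun m _ => ?_
    rw [Complex.ofReal_sub, hch1 x K₃ K₄ R₀ R₁ lam b m _ _ a1 a2 hR₀₁, hch1 x K₃ K₄ R₀ R₁ lam b m _ _ b1 b2 hR₀₁]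
    ring
  -- small conductors
  have hs := hS om x N A K₁ K₃ K₄ R₀ hx1 hN1 hA1 hAx hK₁ hK₃ hK₄ hK hxNA M Mβ lam β hlam.1 hβ
  rw [← hSs, ← hD₁] at hs
  -- medium conductors
  have hm1 := PTD_abs (Pr x N A K₁) K₃ β Mβ hβ (fun p b => GdC x K₃ K₄ A p.1 p.2 b)
    (fun p => Mz x (K₃ * K₄) A p.1 p.2) hsub (fun p b m e => Ec x K₃ K₄ (fun r => R₀ < r ∧ r ≤ R₁) lam b m
      (e * (dl p.1 p.2).natAbs) (om e p.1 p.2))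
  rw [← hSm] at hm1
  have hm2 := hM om x N A K₁ K₃ K₄ R₀ R₁ hx1 hN1 hK₃1 hK₄ lam
  rw [← hD₁] at hm2
  have hm3 := hN x (K₃ * K₄) D₁ R₀ R₁ hx1 hK1 hKx hD1 hR₀ M lam hlam.1
  have hcast : ((K₃ * K₄ : ℕ) : ℝ) = K₃ * K₄ := by push_cast; ring
  rw [hcast] at hm3
  have hm4 := hm1.trans (mul_le_mul_of_nonneg_left (hm2.trans (mul_le_mul_of_nonneg_left hm3 (by positivity)))
    (by positivity))
  -- large conductors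
  have hl1 := PTD_abs (Pr x N A K₁) K₃ β Mβ hβ (fun p b => GdC x K₃ K₄ A p.1 p.2 b)
    (fun p => Mz x (K₃ * K₄) A p.1 p.2) hsub (fun p b m e => Ec x K₃ K₄ (fun r => R₁ < r) lam b m
      (e * (dl p.1 p.2).natAbs) (om e p.1 p.2))
  rw [← hSl] at hl1
  simp only [hch2] at hl1
  have hl2 := hG om hom x N A K₁ K₃ K₄ R₁ hx1 hN1 hAx hK₃1 hK₄ lam
  rw [← hD₁] at hl2
  have hl3 := hQ x K₃ K₄ D₁ R₁ hx1 hK₃1 hK₄ hD1 (hR₀.trans hR₀₁) M lam hlam.1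
  have hl4 : √(K₃ * ∑ D ∈ Icc 1 D₁, 1 / (Nat.totient D : ℝ) * ∑ χ : DirichletCharacter ℂ D with R₁ < χ.conductor,
      ∑ b ∈ range K₃, ∑ j ∈ range (2 * (K₃ * K₄)), ‖Hc x K₃ K₄ lam b j χ‖ ^ 2) ≤
      √C₅ * √(K₃ * (K₃ * (1 + Real.log D₁) * ((x : ℝ) ^ 2 / (K₃ * K₄ * R₁) + D₁) * (M ^ 4 * (x ^ 2 * (1 + Real.log x) ^ 3)))) := by
    rw [← Real.sqrt_mul hC₅.le]
    refine Real.sqrt_le_sqrt ?_
    refine (mul_le_mul_of_nonneg_left hl3 (Nat.cast_nonneg K₃)).trans (le_of_eq ?_)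
    ring
  have hl5 := hl1.trans (mul_le_mul_of_nonneg_left (hl2.trans (mul_le_mul_of_nonneg_left hl4 (by positivity)))
    (by positivity))
  -- together
  have hnorm : ‖(WW N R A β lam : ℂ) - SML x N A K₁ R₀ om β lam‖ ≤
      |WW N R A β lam - Sw| + ‖Ss - SML x N A K₁ R₀ om β lam‖ + ‖Sm‖ + ‖Sl‖ := by
    have e1 : (WW N R A β lam : ℂ) - SML x N A K₁ R₀ om β lam =
        ((WW N R A β lam - Sw : ℝ) : ℂ) + (Ss - SML x N A K₁ R₀ om β lam) + Sm + Sl := by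
      rw [Complex.ofReal_sub, hsplit]
      ring
    rw [e1]
    refine (norm_add_le _ _).trans (add_le_add_left ?_ _)
    refine (norm_add_le _ _).trans (add_le_add_left ?_ _)
    refine (norm_add_le _ _).trans (add_le_add_left ?_ _)
    rw [Complex.norm_real, Real.norm_eq_abs]
  rw [← hD₁]
  have hfin := PTD_fin C₁ C₂ C₃ C₄ (√C₅) C₆ (Mβ ^ 2)
    (M ^ 2 * (N * A ^ 2 / K₁ + x * A + (1 + Real.log x) * (N * A ^ 2 / Z + x * A * √N + N * √N * A) + N * A * (A / K₃ + √N)))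
    (M ^ 2 * R₀ ^ 2 * (1 + Real.log D₁) * (N * A ^ 2 / K₃ + x * N))
    ((1 + (A : ℝ) ^ 2 * (K₃ * K₄) / x ^ 2) * N * ((1 + Real.log D₁) * ((x / ((K₃ * K₄) * R₀) + R₁) * (x * M ^ 2))))
    (√(N * (N * A / x + 1) * (1 + (A : ℝ) ^ 2 * (K₃ * K₄) / x ^ 2)) *
        √(K₃ * (K₃ * (1 + Real.log D₁) * ((x : ℝ) ^ 2 / (K₃ * K₄ * R₁) + D₁) * (M ^ 4 * (x ^ 2 * (1 + Real.log x) ^ 3)))))
    hC₁ hC₂ hC₃ hC₄ (Real.sqrt_nonneg _) hC₆ (by positivity) (by positivity) (by positivity) (by positivity) (by positivity)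
  refine hnorm.trans (le_trans ?_ hfin)
  refine add_le_add (add_le_add (add_le_add hw ?_) ?_) ?_
  · refine hs.trans (le_of_eq ?_)
    ring
  · refine hm4.trans (le_of_eq ?_)
    ring
  · refine hl5.trans (le_of_eq ?_)
    ring

end Pool.Agent.EU
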